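import Pool.Agent.Q317.WC.Main

/-!
# There are no countable gaps in the Weihrauch degrees

If `f n` is Weihrauch reducible to `h m` for all `n`, `m` then the disjoint union of the problems
`f n`, in which an instance of `f n` is given together with the indices of its reductions to
`h 0`, ..., `h n`, is between them.
-/

set_option autoImplicit false

namespace Pool.Agent.Results.MP_2d238a_lc.NoCountableGaps

open Pool.Agent.Q317.WC

/-- **Any two sequences of problems `f n`, `h m` with `f n` below `h m` for all `n`, `m` have an
intermediate problem.** -/
theorem result (f h : ℕ → Problem) (H : ∀ n m, WRed (f n) (h m)) :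
    ∃ g : Problem, ∀ n m, WRed (f n) g ∧ WRed g (h m) :=
  exists_mid f h H

end Pool.Agent.Results.MP_2d238a_lc.NoCountableGaps
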